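import Pool.Agent.Helper73.OB.GoalsB

/-!
Project OB (MP_fc0446_an): packet MIX. A Bernoulli system with at least two letters is mixing enough.
-/

open MeasureTheory ProbabilityTheory
open scoped ENNReal symmDiff

namespace Pool.Agent.Helper19.OB

open Pool.Agent.Helper73.OB

section Words

variable {S : Type} {β : S → S}

/-- There are reduced words of every length, if there are at least two letters. -/
theorem exists_red_length (hβ : ∀ s, β (β s) = s) (h2 : ∃ a b : S, a ≠ b) (n : ℕ) :
    ∃ w : List S, Red β w ∧ w.length = n := by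
  obtain ⟨a, b, hab⟩ := h2
  induction n with
  | zero => exact ⟨[], List.isChain_nil, rfl⟩
  | succ n ih =>
    obtain ⟨w, hw, hn⟩ := ih
    cases w with
    | nil => exact ⟨[a], List.isChain_singleton _, by simp [← hn]⟩
    | cons c w =>
      have h1 : ∃ d : S, c ≠ β d := by
        by_contra hcon
        push Not at hcon
        apply hab
        rw [← hβ a, ← hβ b, ← hcon a, ← hcon b]
      obtain ⟨d, hd⟩ := h1
      exact ⟨d :: c :: w, List.isChain_cons_cons.2 ⟨hd, hw⟩, by simp [← hn]⟩

theorem infinite_RW (hβ : ∀ s, β (β s) = s) (h2 : ∃ a b : S, a ≠ b) : Infinite (RW β) :=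
  Infinite.of_surjective (fun w : RW β => w.1.length) fun n => by
    obtain ⟨w, hw, hn⟩ := exists_red_length hβ h2 n
    exact ⟨⟨w, hw⟩, hn⟩

/-- A reduced word that moves a finite set of coordinates off another finite set. -/
theorem exists_move (hβ : ∀ s, β (β s) = s) (h2 : ∃ a b : S, a ≠ b) (I J : Finset (RW β)) :
    ∃ h : RW β, ∀ w ∈ J, ∀ u ∈ I, red β (h.1 ++ w.1) ≠ u.1 := by
  classical
  haveI := infinite_RW hβ h2
  obtain ⟨h, hh⟩ := Infinite.exists_notMem_finset
    ((I ×ˢ J).image fun q : RW β × RW β =>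
      (⟨red β (q.1.1 ++ invw β q.2.1), red_Red β _⟩ : RW β))
  refine ⟨h, fun w hw u hu he => hh ?_⟩
  rw [Finset.mem_image]
  refine ⟨(u, w), Finset.mem_product.2 ⟨hu, hw⟩, ?_⟩
  apply Subtype.ext
  simp only
  rw [← he]
  -- `red (red (h ++ w) ++ invw w) = h`
  have h1 : red β (red β (h.1 ++ w.1) ++ invw β w.1) = red β (h.1 ++ w.1 ++ invw β w.1) := by
    have key : ∀ x v : List S, red β (red β x ++ v) = red β (x ++ v) := by
      intro x v
      induction x with
      | nil => rfl
      | cons a x ih =>
        rw [red_cons]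
        simp only [List.cons_append]
        rw [red_cons, ← ih]
        unfold ls
        by_cases h1 : (red β x).head? = some (β a)
        · rw [if_pos h1]
          have h2 : red β x = β a :: (red β x).tail := by
            cases hx : red β x with
            | nil => rw [hx] at h1; simp at h1
            | cons b y =>
              rw [hx] at h1
              have hb : b = β a := by simpa using h1
              rw [hb]
              rfl
          have h3 : red β (red β x ++ v) = ls β (β a) (red β ((red β x).tail ++ v)) := by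
            conv_lhs => rw [h2]
            simp only [List.cons_append]
            rw [red_cons]
          have h4 := ls_ls hβ (β a) (red_Red β ((red β x).tail ++ v))
          rw [hβ] at h4
          rw [h3]
          exact h4.symm
        · rw [if_neg h1]
          simp only [List.cons_append]
          rw [red_cons]
          rfl
    exact key _ _
  rw [h1, List.append_assoc, red_append]
  have h3 : red β (w.1 ++ invw β w.1) = [] := by
    have := red_append_invw hβ w.1 []
    simpa [red_nil] using this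
  rw [h3, List.append_nil, red_of_Red h.2]

end Words

/-- The mixing estimate in the Bernoulli model. -/
theorem mix_model {S : Type} [Finite S] {β : S → S} (hβ : ∀ s, β (β s) = s)
    (h2 : ∃ a b : S, a ≠ b) {L : Type} [MeasurableSpace L] (law : Measure L)
    [IsProbabilityMeasure law] (A B : Set (RW β → L)) (hA : MeasurableSet A) (hB : MeasurableSet B)
    (hA0 : 0 < iid β law A) (hB0 : 0 < iid β law B)
    (hmp : ∀ h : RW β, MeasurePreserving (fun ω : RW β → L => fun w : RW β =>
      ω ⟨red β (h.1 ++ w.1), red_Red β _⟩) (iid β law) (iid β law)) :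
    ∃ h : RW β, 0 < iid β law
      (A ∩ (fun ω : RW β → L => fun w : RW β => ω ⟨red β (h.1 ++ w.1), red_Red β _⟩) ⁻¹' B) := by
  classical
  set P : Measure (RW β → L) := iid β law with hP
  haveI : IsProbabilityMeasure P := by rw [hP]; infer_instance
  have hdense : P.MeasureDense (measurableCylinders fun _ : RW β => L) :=
    Measure.MeasureDense.of_generateFrom_isSetAlgebra_finite P
      isSetAlgebra_measurableCylinders generateFrom_measurableCylinders.symm
  have ha : 0 < P.real A := ENNReal.toReal_pos hA0.ne' (measure_ne_top P A)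
  have hb : 0 < P.real B := ENNReal.toReal_pos hB0.ne' (measure_ne_top P B)
  have ha1 : P.real A ≤ 1 := measureReal_le_one
  have hb1 : P.real B ≤ 1 := measureReal_le_one
  set ε : ℝ := P.real A * P.real B / 8 with hε
  have hε0 : 0 < ε := by positivity
  obtain ⟨A₁, hA₁c, hA₁⟩ := hdense.approx A hA (measure_ne_top P A) ε hε0
  obtain ⟨B₁, hB₁c, hB₁⟩ := hdense.approx B hB (measure_ne_top P B) ε hε0
  have hA₁m := hdense.measurable A₁ hA₁c
  have hB₁m := hdense.measurable B₁ hB₁c
  have hA₁r : P.real (A ∆ A₁) < ε := by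
    have := (ENNReal.toReal_lt_toReal (measure_ne_top P _) ENNReal.ofReal_ne_top).2 hA₁
    rwa [ENNReal.toReal_ofReal hε0.le] at this
  have hB₁r : P.real (B ∆ B₁) < ε := by
    have := (ENNReal.toReal_lt_toReal (measure_ne_top P _) ENNReal.ofReal_ne_top).2 hB₁
    rwa [ENNReal.toReal_ofReal hε0.le] at this
  obtain ⟨I, SI, hSI, rfl⟩ := (mem_measurableCylinders A₁).1 hA₁c
  obtain ⟨J, SJ, hSJ, rfl⟩ := (mem_measurableCylinders B₁).1 hB₁c
  obtain ⟨h, hh⟩ := exists_move hβ h2 I J
  refine ⟨h, ?_⟩
  set T : (RW β → L) → (RW β → L) := fun ω => fun w : RW β =>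
    ω ⟨red β (h.1 ++ w.1), red_Red β _⟩ with hT
  have hTmp : MeasurePreserving T P P := hmp h
  -- independence
  set τ : RW β → RW β := fun w => ⟨red β (h.1 ++ w.1), red_Red β _⟩ with hτ
  have hdis : Disjoint I (J.image τ) := by
    rw [Finset.disjoint_left]
    intro u hu hu'
    obtain ⟨w, hw, hwu⟩ := Finset.mem_image.1 hu'
    exact hh w hw u hu (congrArg Subtype.val hwu)
  have hind : iIndepFun (fun (i : RW β) (ω : RW β → L) => ω i) P :=
    iIndepFun_infinitePi (P := fun _ : RW β => law) (X := fun _ x => x) fun _ => measurable_id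
  have hind2 := hind.indepFun_finset I (J.image τ) hdis fun i => measurable_pi_apply i
  let SJ' : Set (J.image τ → L) :=
    (fun (η : J.image τ → L) (w : J) => η ⟨τ w.1, Finset.mem_image_of_mem τ w.2⟩) ⁻¹' SJ
  have hSJ' : MeasurableSet SJ' := by
    apply measurableSet_preimage _ hSJ
    exact measurable_pi_lambda _ fun w => measurable_pi_apply _
  have hprod : P (cylinder I SI ∩ T ⁻¹' cylinder J SJ) = P (cylinder I SI) * P (cylinder J SJ) := by
    have h3 := hind2.measure_inter_preimage_eq_mul SI SJ' hSI hSJ'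
    have h4 : (fun (a : RW β → L) (i : I) => a i) ⁻¹' SI = cylinder I SI := rfl
    have h5 : (fun (a : RW β → L) (i : J.image τ) => a i) ⁻¹' SJ' = T ⁻¹' cylinder J SJ := rfl
    rw [h4, h5] at h3
    rw [h3, hTmp.measure_preimage hB₁m.nullMeasurableSet]
  have hprod' : P.real (cylinder I SI ∩ T ⁻¹' cylinder J SJ) =
      P.real (cylinder I SI) * P.real (cylinder J SJ) := by
    unfold Measure.real
    rw [hprod, ENNReal.toReal_mul]
  -- estimates
  have e1 : P.real A ≤ P.real (cylinder I SI) + P.real (A ∆ cylinder I SI) := by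
    refine (measureReal_mono (s₂ := cylinder I SI ∪ A ∆ cylinder I SI) ?_).trans
      (measureReal_union_le _ _)
    intro x hx
    by_cases hx' : x ∈ cylinder I SI
    · exact Or.inl hx'
    · exact Or.inr (Or.inl ⟨hx, hx'⟩)
  have e2 : P.real B ≤ P.real (cylinder J SJ) + P.real (B ∆ cylinder J SJ) := by
    refine (measureReal_mono (s₂ := cylinder J SJ ∪ B ∆ cylinder J SJ) ?_).trans
      (measureReal_union_le _ _)
    intro x hx
    by_cases hx' : x ∈ cylinder J SJ
    · exact Or.inl hx'
    · exact Or.inr (Or.inl ⟨hx, hx'⟩)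
  have e3 : P.real (cylinder I SI ∩ T ⁻¹' cylinder J SJ) ≤
      P.real (A ∩ T ⁻¹' B) + P.real (A ∆ cylinder I SI) + P.real (B ∆ cylinder J SJ) := by
    have h6 : P.real (T ⁻¹' (B ∆ cylinder J SJ)) = P.real (B ∆ cylinder J SJ) := by
      unfold Measure.real
      rw [hTmp.measure_preimage (hB.symmDiff hB₁m).nullMeasurableSet]
    rw [← h6]
    refine (measureReal_mono (s₂ := (A ∩ T ⁻¹' B ∪ A ∆ cylinder I SI) ∪
      T ⁻¹' (B ∆ cylinder J SJ)) ?_).trans ((measureReal_union_le _ _).trans
        (by gcongr; exact measureReal_union_le _ _))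
    rintro x ⟨hx1, hx2⟩
    by_cases hxA : x ∈ A
    · by_cases hxB : T x ∈ B
      · exact Or.inl (Or.inl ⟨hxA, hxB⟩)
      · exact Or.inr (Or.inr ⟨hx2, hxB⟩)
    · exact Or.inl (Or.inr (Or.inr ⟨hx1, hxA⟩))
  have e4 : 0 < P.real (A ∩ T ⁻¹' B) := by
    have i1 : P.real A - ε ≤ P.real (cylinder I SI) := by linarith
    have i2 : P.real B - ε ≤ P.real (cylinder J SJ) := by linarith
    have i3 : 0 ≤ P.real A - ε := by
      have : P.real A * P.real B ≤ P.real A * 1 := by gcongr
      rw [hε]; linarith
    have i4 : 0 ≤ P.real B - ε := by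
      have : P.real A * P.real B ≤ 1 * P.real B := by gcongr
      rw [hε]; linarith
    have i5 : (P.real A - ε) * (P.real B - ε) ≤ P.real (cylinder I SI) * P.real (cylinder J SJ) :=
      mul_le_mul i1 i2 i4 (by linarith)
    have i6 : ε * P.real A ≤ ε * 1 := by gcongr
    have i7 : ε * P.real B ≤ ε * 1 := by gcongr
    have i8 : 8 * ε = P.real A * P.real B := by rw [hε]; ring
    nlinarith [sq_nonneg ε]
  exact (ENNReal.toReal_pos_iff.1 e4).1

theorem mix : S_MIX := by
  intro S _ β hβ h2 X _ μ _ f hf L _ law _ l hl A B hA hB hA0 hB0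
  obtain ⟨A', hA'm, rfl⟩ := sig_iff.1 hA
  obtain ⟨B', hB'm, rfl⟩ := sig_iff.1 hB
  have hfield := hl.2
  have hpA : (fun x (w : {w | Red β w}) => l (run f w.1 x)) ⁻¹' A' = field β f l ⁻¹' A' := rfl
  have hpB : (fun x (w : {w | Red β w}) => l (run f w.1 x)) ⁻¹' B' = field β f l ⁻¹' B' := rfl
  have hmA : MeasurableSet (A' : Set (RW β → L)) := hA'm
  have hmB : MeasurableSet (B' : Set (RW β → L)) := hB'm
  rw [hpA] at hA0
  rw [hpB] at hB0
  have hT : ∀ (h : RW β) (x : X), field β f l (run f h.1 x) =
      (fun ω : RW β → L => fun w : RW β => ω ⟨red β (h.1 ++ w.1), red_Red β _⟩)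
        (field β f l x) := by
    intro h x
    funext w
    simp only [field]
    rw [run_red hf.inv, run_append]
  have hmeasT : ∀ h : RW β, Measurable
      (fun ω : RW β → L => fun w : RW β => ω ⟨red β (h.1 ++ w.1), red_Red β _⟩) := fun h =>
    measurable_pi_lambda _ fun w => measurable_pi_apply _
  have hmp : ∀ h : RW β, MeasurePreserving (fun ω : RW β → L => fun w : RW β =>
      ω ⟨red β (h.1 ++ w.1), red_Red β _⟩) (iid β law) (iid β law) := by
    intro h
    refine ⟨hmeasT h, ?_⟩
    have h3 := (hfield.comp (hf.run_mp h.1)).map_eq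
    have h4 : field β f l ∘ run f h.1 = (fun ω : RW β → L => fun w : RW β =>
      ω ⟨red β (h.1 ++ w.1), red_Red β _⟩) ∘ field β f l := funext fun x => hT h x
    rw [h4, ← Measure.map_map (hmeasT h) hfield.measurable, hfield.map_eq] at h3
    exact h3
  obtain ⟨h, hh⟩ := mix_model hβ h2 law A' B' hmA hmB
    (by rwa [hfield.measure_preimage hmA.nullMeasurableSet] at hA0)
    (by rwa [hfield.measure_preimage hmB.nullMeasurableSet] at hB0) hmp
  refine ⟨h.1, h.2, ?_⟩
  rw [← hfield.measure_preimage (hmA.inter (hmeasT h hmB)).nullMeasurableSet] at hh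
  refine lt_of_lt_of_le hh (measure_mono ?_)
  rintro x ⟨hx1, hx2⟩
  refine ⟨hx1, ?_⟩
  change field β f l (run f h.1 x) ∈ B'
  rw [hT]
  exact hx2

end Pool.Agent.Helper19.OB
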