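import Pool.Agent.Helper79.OB.GoalsC

/-!
Project OB (MP_fc0446_an): packet ORB. Orbits of two families.
-/

open MeasureTheory

namespace Pool.Agent.Helper19.OB

open Pool.Agent.Helper73.OB Pool.Agent.Helper79.OB

variable {S X : Type}

theorem orb_one {f g : S → X → X} {G : Set X} (hG : ∀ x ∈ G, ∀ a, f a x ∈ G)
    (h : ∀ x ∈ G, ∀ a, ∃ w, run g w x = f a x) (w : List S) :
    ∀ x ∈ G, ∃ w', run g w' x = run f w x := by
  induction w with
  | nil => exact fun x _ => ⟨[], rfl⟩
  | cons a w ih =>
    intro x hx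
    obtain ⟨u, hu⟩ := h x hx a
    obtain ⟨v, hv⟩ := ih (f a x) (hG x hx a)
    refine ⟨u ++ v, ?_⟩
    rw [run_append, hu, hv, run_cons]

theorem th_orb : Pool.Agent.Helper79.OB.S_ORB := by
  intro S X _ μ f g h
  constructor
  · intro G hG hpres hone
    have hae : ∀ᵐ x ∂μ, x ∈ G := by
      rw [ae_iff]
      exact hG
    filter_upwards [hae] with x hx
    intro y
    constructor
    · rintro ⟨w, rfl⟩
      exact orb_one (fun x hx a => (hpres x hx a).1) (fun x hx a => (hone x hx a).2) w x hx
    · rintro ⟨w, rfl⟩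
      exact orb_one (fun x hx a => (hpres x hx a).2) (fun x hx a => (hone x hx a).1) w x hx
  · intro h1 h2
    filter_upwards [h1, h2] with x hx1 hx2
    intro y
    exact (hx1 y).trans (hx2 y)

end Pool.Agent.Helper19.OB
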