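import Pool.Agent.Helper70.OB.Goals

/-!
# Packet OB-REP
-/

open MeasureTheory Set Metric Filter
open scoped ENNReal Topology
open Pool.Agent.Results.MP_91ee6f_gt
open Pool.Agent.Helper70.MM (fSPH1 fSPH2)

namespace Pool.Agent.Helper19.OB

open Pool.Agent.Helper70.OB

lemma rot_vol_restrict {n : ℕ} (b : ℝ) (g : En n ≃ₗᵢ[ℝ] En n) :
    ((volume : Measure (En n)).restrict (closedBall 0 b)).map g =
      (volume : Measure (En n)).restrict (closedBall 0 b) := by
  have h1 : MeasurePreserving (g : En n → En n) volume volume := g.measurePreserving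
  have h2 : (g : En n → En n) ⁻¹' (closedBall 0 b) = closedBall 0 b := by
    ext x
    simp [mem_closedBall, dist_zero_right]
  have h3 := h1.restrict_preimage (measurableSet_closedBall (x := (0 : En n)) (ε := b))
  rw [h2] at h3
  exact h3.map_eq

lemma sph_ball {n : ℕ} (hn : 1 ≤ n) {s : ℝ} (hs : 0 ≤ s) (t : ℝ) :
    sphUnif n s (ball 0 t) = if s < t then 1 else 0 := by
  obtain ⟨hP, hae, -⟩ := fSPH1 n hn s
  have h := hae hs
  split_ifs with hst
  · have : (ball (0 : En n) t) ∈ ae (sphUnif n s) := by
      filter_upwards [h] with y hy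
      rw [mem_ball_zero_iff, hy]
      exact hst
    have h1 : (sphUnif n s) (ball 0 t)ᶜ = 0 := this
    have h2 := measure_add_measure_compl (μ := sphUnif n s) (measurableSet_ball (x := (0 : En n)) (ε := t))
    rw [h1, add_zero, measure_univ] at h2
    exact h2
  · have : ∀ᵐ y ∂(sphUnif n s), y ∉ ball (0 : En n) t := by
      filter_upwards [h] with y hy
      rw [mem_ball_zero_iff, hy]
      exact hst
    exact measure_eq_zero_iff_ae_notMem.2 this

theorem rep : ROTD → REP := by
  intro hrot n hn τ S R b r hfin hR hb hbR hIcc hSR hSc hsupp hanti hr0 hbr hrt hSb hmm hlim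
  have hn1 : 1 ≤ n := by omega
  have hnt : Nontrivial (En n) := by
    have : Nonempty (Fin n) := ⟨⟨0, by omega⟩⟩
    infer_instance
  set c : ℝ := ((n.factorial : ℝ) * (volume : Measure (En n)).real (ball 0 1))⁻¹ with hc
  have hrpos : ∀ i, 0 < r i := fun i => lt_of_le_of_lt hb (hbr i)
  -- masses of the spheres
  have hnull : τ {x : En n | ‖x‖ ∉ S} = 0 := by
    have := Measure.measure_compl_support (μ := τ)
    rw [hsupp] at this
    exact this
  have hsphne : ∀ i, τ (sphere 0 (r i)) ≠ 0 := by
    intro i h0
    obtain ⟨x, hx⟩ : ∃ x : En n, ‖x‖ = r i := exists_norm_eq (En n) (hrpos i).le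
    have hxS : x ∈ τ.support := by
      rw [hsupp]
      show ‖x‖ ∈ S
      rw [hx]
      have : r i ∈ S ∩ Ioi b := by rw [hSb]; exact mem_range_self i
      exact this.1
    rw [Measure.mem_support_iff_forall] at hxS
    set U : Set (En n) := {y | r (i + 1) < ‖y‖ ∧ (i = 0 ∨ ‖y‖ < r (i - 1))} with hU
    have hUo : IsOpen U := by
      apply IsOpen.and
      · exact isOpen_lt continuous_const continuous_norm
      · by_cases hi : i = 0
        · simp [hi]
        · simp only [hi, false_or]
          exact isOpen_lt continuous_norm continuous_const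
    have hxU : x ∈ U := by
      refine ⟨?_, ?_⟩
      · rw [hx]; exact hanti (Nat.lt_succ_self i)
      · by_cases hi : i = 0
        · exact Or.inl hi
        · right
          rw [hx]
          exact hanti (by omega)
    have h1 := hxS U (hUo.mem_nhds hxU)
    have h2 : U ⊆ sphere 0 (r i) ∪ {x : En n | ‖x‖ ∉ S} := by
      intro y hy
      by_cases hyS : ‖y‖ ∈ S
      · left
        have : ‖y‖ ∈ S ∩ Ioi b := ⟨hyS, lt_trans (hbr (i+1)) hy.1⟩
        rw [hSb] at this
        obtain ⟨j, hj⟩ := this
        have hj1 : j < i + 1 := by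
          have := hy.1
          rw [← hj] at this
          exact hanti.lt_iff_gt.1 this
        have hj2 : i ≤ j := by
          rcases hy.2 with h | h
          · omega
          · rw [← hj] at h
            have := hanti.lt_iff_gt.1 h
            omega
        have : j = i := by omega
        rw [mem_sphere_zero_iff_norm, ← hj, this]
      · right; exact hyS
    have h3 : τ U ≤ 0 := by
      calc τ U ≤ τ (sphere 0 (r i) ∪ {x : En n | ‖x‖ ∉ S}) := measure_mono h2
        _ ≤ τ (sphere 0 (r i)) + τ {x : En n | ‖x‖ ∉ S} := measure_union_le _ _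
        _ = 0 := by rw [h0, hnull, add_zero]
    exact absurd h1 (not_lt.2 h3)
  set m : ℕ → ℝ := fun i => τ.real (sphere 0 (r i)) with hm
  have hmpos : ∀ i, 0 < m i := fun i =>
    ENNReal.toReal_pos (hsphne i) (measure_ne_top _ _)
  have hmof : ∀ i, ENNReal.ofReal (m i) = τ (sphere 0 (r i)) := fun i =>
    ENNReal.ofReal_toReal (measure_ne_top _ _)
  have hdisj : Pairwise (Function.onFun Disjoint fun i => sphere (0 : En n) (r i)) := by
    intro i j hij
    rw [Function.onFun, Set.disjoint_left]
    intro x hx hx'
    rw [mem_sphere_zero_iff_norm] at hx hx'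
    exact hij (hanti.injective (hx.symm.trans hx'))
  set ρ : Measure (En n) := ENNReal.ofReal c • (volume : Measure (En n)).restrict (closedBall 0 b) +
      Measure.sum (fun i => ENNReal.ofReal (m i) • sphUnif n (r i)) with hρ
  have hSU : τ.support = closedBall 0 b ∪ ⋃ i, sphere 0 (r i) := by
    rw [hsupp]
    ext x
    simp only [mem_ofPred_eq, mem_union, mem_iUnion, mem_closedBall_zero_iff,
      mem_sphere_zero_iff_norm]
    constructor
    · intro hx
      by_cases hxb : ‖x‖ ≤ b
      · exact Or.inl hxb
      · right
        have : ‖x‖ ∈ S ∩ Ioi b := ⟨hx, not_le.1 hxb⟩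
        rw [hSb] at this
        obtain ⟨j, hj⟩ := this
        exact ⟨j, hj.symm⟩
    · rintro (h | ⟨i, hi⟩)
      · exact hIcc ⟨norm_nonneg _, h⟩
      · have : ‖x‖ ∈ S ∩ Ioi b := by rw [hSb, hi]; exact mem_range_self i
        exact this.1
  have hρfin : IsFiniteMeasure ρ := by
    constructor
    rw [hρ, Measure.add_apply, Measure.smul_apply, Measure.restrict_apply MeasurableSet.univ,
      Measure.sum_apply _ MeasurableSet.univ, univ_inter, smul_eq_mul]
    have h1 : ∀ i, (ENNReal.ofReal (m i) • sphUnif n (r i)) univ = τ (sphere 0 (r i)) := by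
      intro i
      have := (fSPH1 n hn1 (r i)).1
      rw [Measure.smul_apply, measure_univ, smul_eq_mul, mul_one, hmof]
    simp only [h1]
    rw [← measure_iUnion hdisj (fun i => isClosed_sphere.measurableSet)]
    exact ENNReal.add_lt_top.2 ⟨ENNReal.mul_lt_top ENNReal.ofReal_lt_top
      (measure_closedBall_lt_top), measure_lt_top _ _⟩
  have hρrot : Rot ρ := by
    intro g
    have hg : Measurable (g : En n → En n) := g.continuous.measurable
    rw [hρ, Measure.map_add _ _ hg, Measure.map_smul, rot_vol_restrict,
      Measure.map_sum hg.aemeasurable]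
    congr 2
    funext i
    rw [Measure.map_smul, (fSPH2 n (r i)).1 g]
  -- volumes
  have hvol1 : 0 < (volume : Measure (En n)).real (ball 0 1) :=
    ENNReal.toReal_pos (measure_ball_pos _ _ one_pos).ne' measure_ball_lt_top.ne
  have hfr : Module.finrank ℝ (En n) = n := by simp
  have hfac : (n : ℝ) * ((n - 1).factorial : ℝ) = (n.factorial : ℝ) := by
    have : n * (n - 1).factorial = n.factorial := Nat.mul_factorial_pred (by omega)
    exact_mod_cast this
  have hnpos : (0 : ℝ) < n := by exact_mod_cast (by omega : 0 < n)
  have hfpos : (0 : ℝ) < ((n - 1).factorial : ℝ) := by exact_mod_cast Nat.factorial_pos _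
  have hcv : ∀ t : ℝ, 0 ≤ t → ENNReal.ofReal c * (ENNReal.ofReal (t ^ n) *
      (volume : Measure (En n)) (ball 0 1)) = ENNReal.ofReal (t ^ n / n.factorial) := by
    intro t ht
    have h1 : (volume : Measure (En n)) (ball 0 1) =
        ENNReal.ofReal ((volume : Measure (En n)).real (ball 0 1)) :=
      (ENNReal.ofReal_toReal measure_ball_lt_top.ne).symm
    have hc0 : 0 ≤ c := by positivity
    rw [h1, ← ENNReal.ofReal_mul (by positivity), ← ENNReal.ofReal_mul hc0]
    congr 1
    rw [hc]
    have := hvol1.ne'
    have h2 : (n.factorial : ℝ) ≠ 0 := by positivity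
    field_simp
  have hball : ∀ t : ℝ, 0 < t → t ≤ b → τ (ball 0 t) = ENNReal.ofReal (t ^ n / n.factorial) := by
    intro t ht htb
    have h1 := hmm t ht htb
    unfold mm at h1
    rw [← ENNReal.ofReal_toReal (measure_ne_top τ (ball 0 t))]
    congr 1
    have h2 : τ.real (ball 0 t) = (τ (ball 0 t)).toReal := rfl
    rw [← h2, ← hfac]
    have := hfpos.ne'
    field_simp
    rw [eq_div_iff hnpos.ne'] at h1
    linarith
  have hcb : τ (closedBall 0 b) = ENNReal.ofReal (b ^ n / n.factorial) := by
    have h1 : Tendsto (τ ∘ fun t => ball (0 : En n) t) (𝓝[>] b)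
        (𝓝 (τ (⋂ t, ⋂ (_ : t > b), ball 0 t))) :=
      tendsto_measure_biInter_gt (fun t _ => measurableSet_ball.nullMeasurableSet)
        (fun i j _ hij => ball_subset_ball hij) ⟨b + 1, by linarith, measure_ne_top _ _⟩
    have h2 : (⋂ t, ⋂ (_ : t > b), ball (0 : En n) t) = closedBall 0 b := by
      ext x
      simp only [mem_iInter, mem_ball_zero_iff, mem_closedBall_zero_iff]
      constructor
      · intro h
        exact le_of_forall_gt_imp_ge_of_dense (fun t ht => (h t ht).le)
      · intro h t ht
        exact lt_of_le_of_lt h ht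
    rw [h2] at h1
    have h3 : Tendsto (fun t => ENNReal.ofReal (mm τ t / ((n - 1).factorial : ℝ))) (𝓝[>] b)
        (𝓝 (ENNReal.ofReal (b ^ n / n / ((n - 1).factorial : ℝ)))) :=
      (ENNReal.continuous_ofReal.tendsto _).comp (hlim.div_const _)
    have h4 : (fun t => ENNReal.ofReal (mm τ t / ((n - 1).factorial : ℝ))) =
        (τ ∘ fun t => ball (0 : En n) t) := by
      funext t
      unfold mm
      rw [mul_div_cancel_left₀ _ hfpos.ne']
      exact ENNReal.ofReal_toReal (measure_ne_top _ _)
    rw [h4] at h3
    have h5 := tendsto_nhds_unique h1 h3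
    rw [h5, div_div, hfac]
  -- masses of balls
  have hballs : ∀ t : ℝ, 0 < t → τ (ball 0 t) = ρ (ball 0 t) := by
    intro t ht
    rw [hρ, Measure.add_apply, Measure.smul_apply, Measure.restrict_apply measurableSet_ball,
      Measure.sum_apply _ measurableSet_ball, smul_eq_mul]
    have h1 : ∀ i, (ENNReal.ofReal (m i) • sphUnif n (r i)) (ball 0 t) =
        if r i < t then τ (sphere 0 (r i)) else 0 := by
      intro i
      rw [Measure.smul_apply, sph_ball hn1 (hrpos i).le, smul_eq_mul, hmof]
      split_ifs <;> simp
    simp only [h1]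
    rcases le_or_gt t b with htb | htb
    · have h2 : ∀ i, ¬ r i < t := fun i => not_lt.2 (htb.trans (hbr i).le)
      simp only [h2, if_false, tsum_zero, add_zero]
      rw [inter_eq_left.2 ((ball_subset_ball htb).trans ball_subset_closedBall),
        Measure.addHaar_ball volume _ ht.le, hfr, hcv t ht.le, hball t ht htb]
    · rw [inter_eq_right.2 (closedBall_subset_ball htb),
        Measure.addHaar_closedBall volume _ hb, hfr, hcv b hb, ← hcb]
      have h3 : (fun i => if r i < t then τ (sphere 0 (r i)) else 0) =
          fun i => τ (if r i < t then sphere 0 (r i) else ∅) := by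
        funext i
        split_ifs <;> simp
      rw [h3, ← measure_iUnion]
      · rw [← measure_union']
        · apply measure_congr
          rw [Filter.eventuallyEq_set]
          have hae : ∀ᵐ x ∂τ, ‖x‖ ∈ S := hnull
          filter_upwards [hae] with x hx
          simp only [mem_ball_zero_iff, mem_union, mem_closedBall_zero_iff, mem_iUnion]
          constructor
          · intro hxt
            by_cases hxb : ‖x‖ ≤ b
            · exact Or.inl hxb
            · right
              have : ‖x‖ ∈ S ∩ Ioi b := ⟨hx, not_le.1 hxb⟩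
              rw [hSb] at this
              obtain ⟨j, hj⟩ := this
              refine ⟨j, ?_⟩
              rw [if_pos (by rw [hj]; exact hxt)]
              rw [mem_sphere_zero_iff_norm, hj]
          · rintro (h | ⟨i, hi⟩)
            · exact lt_of_le_of_lt h htb
            · split_ifs at hi with h'
              · rw [mem_sphere_zero_iff_norm] at hi
                rw [hi]; exact h'
              · exact absurd hi (notMem_empty _)
        · rw [Set.disjoint_left]
          intro x hx hx'
          rw [mem_closedBall_zero_iff] at hx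
          simp only [mem_iUnion] at hx'
          obtain ⟨i, hi⟩ := hx'
          split_ifs at hi with h'
          · rw [mem_sphere_zero_iff_norm] at hi
            have := hbr i
            linarith
          · exact absurd hi (notMem_empty _)
        · exact isClosed_closedBall.measurableSet
      · intro i j hij
        rw [Function.onFun, Set.disjoint_left]
        intro x hx hx'
        split_ifs at hx hx' with h1 h2
        · exact (Set.disjoint_left.1 (hdisj hij)) hx hx'
        all_goals first | exact absurd hx' (notMem_empty _) | exact absurd hx (notMem_empty _)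
      · intro i
        split_ifs
        · exact isClosed_sphere.measurableSet
        · exact MeasurableSet.empty
  have heq : τ = ρ := hrot n hn1 τ ρ hfin hρfin hR hρrot hballs
  exact ⟨r, m, hanti, hr0, hrt, hmpos, heq, hSU⟩

end Pool.Agent.Helper19.OB
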